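import Pool.Agent.TH662.SN.Time

/-!
# Testing an upper bound on the tensor spectral norm is `∀ℝ`-complete

`SpectralNormBound (T, σ)`: `T` is a `d × d × d` tensor with rational entries, `σ > 0` is rational
and the spectral norm of `T` (the maximum of `|T(x, y, z)|` over unit vectors) is at most `σ`.
`SpectralNormExceed (T, σ)`: on the same inputs, the spectral norm is larger than `σ`.

Sketch of the hardness proof. Let `g₁ = … = g_m = 0` be homogeneous quadratic equations in
`x₀, …, x_n`, containing equations `4 x_i² + 4 s_i² = x₀²` and a chain of squarings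
`8 e₀ = x₀`, `e_{j+1} x₀ = e_j²`, and put `u = e_K`. As in the proof that Tensor Singular Value is
`∃ℝ`-complete, there are symmetric bilinear forms `A_k` with integer coefficients and
`∑ A_k(x,y)² = C (|x|²|y|² + ⟨x,y⟩²) - c ∑ g_l(x,y)²`, and one adds the form `u(x) y₀ + x₀ u(y)`.
The tensor `T(x,y,z) = ∑ z_k A_k(x,y)` has `|T|² > 2C` at unit vectors iff
`C (1 - |x|²|y|²) + C (1 - ⟨x,y⟩²) + c ∑ g_l(x,y)² < (u(x) y₀ + x₀ u(y))²`. If this is the case, then
`y` is close to `± x`, and after division by `x₀` all equations hold up to an error of at most `u/4`.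
But then the chain of squarings shows that `u ≤ 2 ^ (-2 ^ K)`, so the equations hold up to a doubly
exponentially small error, and they have an exact solution. Conversely an exact solution gives
`x = y` with the inequality, since `u > 0`.
-/

namespace Pool.Agent.Results.MP_50cd9e_lc.SpectralNormComplete

open Pool.Agent.NPC Pool.Agent.NPC.ER Pool.Agent.TH662.SN

/-- SPECTRAL-NORM-BOUND is `∀ℝ`-complete and SPECTRAL-NORM-EXCEED is `∃ℝ`-complete, under
polynomial-time many-one reductions. -/
theorem result : ARComplete (lang SpectralNormBound) ∧ ERComplete (lang SpectralNormExceed) :=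
  ⟨Pool.Agent.NPC.TH662SN.bound_complete, Pool.Agent.NPC.TH662SN.exceed_complete⟩

end Pool.Agent.Results.MP_50cd9e_lc.SpectralNormComplete
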